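import Pool.Agent.H61.NVK.TargetsE3
import Pool.Agent.H65.CM4.Targets1

/-!
# The Epstein zeta functions in the domain of convergence
-/

set_option autoImplicit false

open MeasureTheory Set Filter NumberField NumberField.InfinitePlace
open scoped Real nonZeroDivisors

namespace Pool.Agent.H61.NVE_EBD

open Pool.Agent.H65.CM4 Pool.Agent.H61.CM4 Pool.Agent.H61.NVK

/-- one place, `b` is not zero -/
theorem place1 {C x y a b : ℝ} (hC : 1 ≤ C) (hy : 0 < y) (hb : 1 / C ≤ |b|) :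
    ((qr x y a b) ^ 2)⁻¹ ≤ 4 * (1 + C ^ 2) * (y + y⁻¹) ^ 2 *
      ((b ^ 2)⁻¹ * (1 + (a + b * x) ^ 2)⁻¹) := by
  have hC0 : 0 < C := by linarith
  have hb0 : 0 < |b| := lt_of_lt_of_le (by positivity) hb
  have hb2 : 0 < b ^ 2 := by rw [← sq_abs]; positivity
  have hbC : 1 ≤ C ^ 2 * b ^ 2 := by
    have h1 : 1 ≤ C * |b| := by
      rw [div_le_iff₀ hC0] at hb; linarith
    have h2 : (1 : ℝ) ≤ (C * |b|) ^ 2 := one_le_pow₀ h1
    rw [mul_pow, sq_abs] at h2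
    exact h2
  set A : ℝ := a + b * x with hA
  have hq : qr x y a b = (A ^ 2 + (b * y) ^ 2) / (2 * y) := rfl
  have hy2 : 0 < y ^ 2 := by positivity
  have hN : 0 < A ^ 2 + (b * y) ^ 2 := by
    have : 0 < (b * y) ^ 2 := by rw [mul_pow]; positivity
    positivity
  have hyi : y * y⁻¹ = 1 := mul_inv_cancel₀ hy.ne'
  -- the main inequality
  have key : 1 + A ^ 2 ≤ (1 + C ^ 2) * (y + y⁻¹) ^ 2 * (A ^ 2 + (b * y) ^ 2) := by
    have e1 : (y + y⁻¹) ^ 2 = y ^ 2 + 2 + (y⁻¹) ^ 2 := by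
      have : (y + y⁻¹) ^ 2 = y ^ 2 + 2 * (y * y⁻¹) + (y⁻¹) ^ 2 := by ring
      rw [this, hyi]; ring
    have e2 : (y⁻¹) ^ 2 * (b * y) ^ 2 = b ^ 2 := by
      have : (y⁻¹) ^ 2 * (b * y) ^ 2 = b ^ 2 * (y * y⁻¹) ^ 2 := by ring
      rw [this, hyi]; ring
    have t1 : A ^ 2 ≤ (1 + C ^ 2) * (y + y⁻¹) ^ 2 * A ^ 2 := by
      have : 1 ≤ (1 + C ^ 2) * (y + y⁻¹) ^ 2 := by
        have h3 : (1 : ℝ) ≤ 1 + C ^ 2 := by nlinarith [sq_nonneg C]
        have h4 : (1 : ℝ) ≤ (y + y⁻¹) ^ 2 := by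
          rw [e1]; nlinarith [sq_nonneg (y⁻¹)]
        nlinarith
      nlinarith [sq_nonneg A]
    have t2 : 1 ≤ (1 + C ^ 2) * (y + y⁻¹) ^ 2 * (b * y) ^ 2 := by
      have h5 : (y⁻¹) ^ 2 ≤ (y + y⁻¹) ^ 2 := by rw [e1]; nlinarith
      have h6 : (1 + C ^ 2) * (y⁻¹) ^ 2 * (b * y) ^ 2 ≤
          (1 + C ^ 2) * (y + y⁻¹) ^ 2 * (b * y) ^ 2 := by
        apply mul_le_mul_of_nonneg_right _ (sq_nonneg _)
        exact mul_le_mul_of_nonneg_left h5 (by positivity)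
      have h7 : (1 + C ^ 2) * (y⁻¹) ^ 2 * (b * y) ^ 2 = (1 + C ^ 2) * b ^ 2 := by
        rw [mul_assoc, e2]
      rw [h7] at h6
      nlinarith
    nlinarith
  have h1A : 0 < 1 + A ^ 2 := by positivity
  rw [hq, div_pow, inv_div]
  rw [div_le_iff₀ (by positivity)]
  have e3 : 4 * (1 + C ^ 2) * (y + y⁻¹) ^ 2 * ((b ^ 2)⁻¹ * (1 + A ^ 2)⁻¹) *
      (A ^ 2 + (b * y) ^ 2) ^ 2 =
      4 * (b ^ 2)⁻¹ * (A ^ 2 + (b * y) ^ 2) *
        (((1 + C ^ 2) * (y + y⁻¹) ^ 2 * (A ^ 2 + (b * y) ^ 2)) * (1 + A ^ 2)⁻¹) := by ring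
  rw [e3]
  have h8 : 1 ≤ ((1 + C ^ 2) * (y + y⁻¹) ^ 2 * (A ^ 2 + (b * y) ^ 2)) * (1 + A ^ 2)⁻¹ := by
    rw [← div_eq_mul_inv, le_div_iff₀ h1A, one_mul]
    exact key
  have h9 : (2 * y) ^ 2 ≤ 4 * (b ^ 2)⁻¹ * (A ^ 2 + (b * y) ^ 2) := by
    have : 4 * (b ^ 2)⁻¹ * (A ^ 2 + (b * y) ^ 2) =
        4 * (b ^ 2)⁻¹ * A ^ 2 + 4 * y ^ 2 * (b ^ 2 * (b ^ 2)⁻¹) := by ring
    rw [this, mul_inv_cancel₀ hb2.ne']
    have : 0 ≤ 4 * (b ^ 2)⁻¹ * A ^ 2 := by positivity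
    nlinarith
  calc (2 * y) ^ 2 ≤ 4 * (b ^ 2)⁻¹ * (A ^ 2 + (b * y) ^ 2) := h9
    _ ≤ _ := le_mul_of_one_le_right (by positivity) h8

/-- one place, `b` is zero -/
theorem place0 {C x y a : ℝ} (hC : 1 ≤ C) (hy : 0 < y) (ha : a ≠ 0) :
    ((qr x y a 0) ^ 2)⁻¹ ≤ 4 * (1 + C ^ 2) * (y + y⁻¹) ^ 2 * ((a ^ 2)⁻¹ * (a ^ 2)⁻¹) := by
  have hq : qr x y a 0 = a ^ 2 / (2 * y) := by simp [qr]
  have ha2 : 0 < a ^ 2 := by positivity
  have hyi : 0 < y⁻¹ := by positivity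
  rw [hq, div_pow, inv_div, div_le_iff₀ (by positivity)]
  have e : 4 * (1 + C ^ 2) * (y + y⁻¹) ^ 2 * ((a ^ 2)⁻¹ * (a ^ 2)⁻¹) * (a ^ 2) ^ 2 =
      4 * (1 + C ^ 2) * (y + y⁻¹) ^ 2 * (a ^ 2 * (a ^ 2)⁻¹) ^ 2 := by ring
  rw [e, mul_inv_cancel₀ ha2.ne']
  have h1 : y ^ 2 ≤ (y + y⁻¹) ^ 2 := by nlinarith
  have h2 : (1 : ℝ) ≤ 1 + C ^ 2 := by nlinarith [sq_nonneg C]
  nlinarith [sq_nonneg (y + y⁻¹)]

section

variable {k : Type} [Field k] [NumberField k] [IsTotallyReal k]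

/-- balanced numbers -/
def Blc (C : ℝ) (w : 𝓞 k) : Prop :=
  ∀ v : Pl k, Nr (w : k) ^ (1 / (dg k : ℝ)) / C ≤ |rv v (w : k)| ∧
    |rv v (w : k)| ≤ C * Nr (w : k) ^ (1 / (dg k : ℝ))

theorem blc_prod {C : ℝ} (hC : 1 ≤ C) (hn : Fintype.card (Pl k) = dg k) (h0 : 0 < dg k)
    {w : 𝓞 k} (h1 : 1 ≤ Nr (w : k)) (hb : Blc C w) :
    ∏ v : Pl k, (rv v (w : k) ^ 2)⁻¹ ≤
      (2 * C ^ 2) ^ dg k * ∏ v : Pl k, (1 + rv v (w : k) ^ 2)⁻¹ := by
  have hN0 : 0 ≤ Nr (w : k) := by linarith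
  have hP : ∏ v : Pl k, rv v (w : k) ^ 2 = Nr (w : k) ^ 2 := by
    rw [Nr, ← Finset.prod_pow]
    exact Finset.prod_congr rfl (fun v _ => (sq_abs _).symm)
  have hroot : ∏ _v : Pl k, (Nr (w : k) ^ (1 / (dg k : ℝ))) ^ 2 = Nr (w : k) ^ 2 := by
    rw [Finset.prod_const, Finset.card_univ, hn, ← pow_mul, mul_comm 2 (dg k), pow_mul,
      ← Real.rpow_natCast (Nr (w : k) ^ (1 / (dg k : ℝ))) (dg k), ← Real.rpow_mul hN0]
    rw [one_div, inv_mul_cancel₀ (by exact_mod_cast h0.ne'), Real.rpow_one]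
  have h2 : ∀ v : Pl k, 1 + rv v (w : k) ^ 2 ≤
      2 * C ^ 2 * (Nr (w : k) ^ (1 / (dg k : ℝ))) ^ 2 := by
    intro v
    have hr : 1 ≤ Nr (w : k) ^ (1 / (dg k : ℝ)) := Real.one_le_rpow h1 (by positivity)
    have h3 : rv v (w : k) ^ 2 ≤ (C * Nr (w : k) ^ (1 / (dg k : ℝ))) ^ 2 := by
      rw [← sq_abs]
      exact pow_le_pow_left₀ (abs_nonneg _) (hb v).2 2
    have h4 : 1 ≤ C ^ 2 * (Nr (w : k) ^ (1 / (dg k : ℝ))) ^ 2 := by
      have h5 : 1 ≤ C ^ 2 := one_le_pow₀ hC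
      have h6 : 1 ≤ (Nr (w : k) ^ (1 / (dg k : ℝ))) ^ 2 := one_le_pow₀ hr
      nlinarith
    rw [mul_pow] at h3
    linarith
  have h7 : ∏ v : Pl k, (1 + rv v (w : k) ^ 2) ≤ (2 * C ^ 2) ^ dg k * Nr (w : k) ^ 2 := by
    refine (Finset.prod_le_prod (fun v _ => by positivity) (fun v _ => h2 v)).trans ?_
    rw [Finset.prod_mul_distrib, hroot, Finset.prod_const, Finset.card_univ, hn]
  rw [Finset.prod_inv_distrib, Finset.prod_inv_distrib, hP]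
  have hpos : 0 < ∏ v : Pl k, (1 + rv v (w : k) ^ 2) := Finset.prod_pos fun v _ => by positivity
  have hN2 : 0 < Nr (w : k) ^ 2 := by positivity
  rw [← div_eq_mul_inv, le_div_iff₀ hpos, inv_mul_le_iff₀ hN2]
  linarith [mul_comm (Nr (w : k) ^ 2) ((2 * C ^ 2) ^ dg k)]

omit [IsTotallyReal k] in
theorem prod_split (hn : Fintype.card (Pl k) = dg k) (c : ℝ) (z f g : Pl k → ℝ) :
    ∏ v, (c * z v ^ 2 * (f v * g v)) =
      c ^ dg k * (∏ v, z v) ^ 2 * ((∏ v, f v) * ∏ v, g v) := by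
  simp only [Finset.prod_mul_distrib, Finset.prod_const, Finset.card_univ, hn, Finset.prod_pow]

/-- the majorant -/
noncomputable def HH (x : Pl k → ℝ) (b a : 𝓞 k) : ℝ := (∏ v, (1 + rv v (b : k) ^ 2)⁻¹) *
  ∏ v, (1 + (rv v (a : k) + rv v (b : k) * x v) ^ 2)⁻¹

theorem HH_nn (x : Pl k → ℝ) (b a : 𝓞 k) : 0 ≤ HH x b a :=
  mul_nonneg (Finset.prod_nonneg fun v _ => by positivity)
    (Finset.prod_nonneg fun v _ => by positivity)

theorem HH_sum {CL : ℝ} (hCL0 : 0 < CL)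
    (hCL : ∀ p : Pl k → ℝ, Summable (fun a : 𝓞 k => ∏ v, (1 + (rv v (a : k) + p v) ^ 2)⁻¹) ∧
      ∑' a : 𝓞 k, ∏ v, (1 + (rv v (a : k) + p v) ^ 2)⁻¹ ≤ CL) (x : Pl k → ℝ) :
    Summable (fun u : 𝓞 k × 𝓞 k => HH x u.2 u.1) ∧
      ∑' u : 𝓞 k × 𝓞 k, HH x u.2 u.1 ≤ CL * CL := by
  have hS0 := hCL (fun _ => 0)
  simp only [add_zero] at hS0
  have hin : ∀ b : 𝓞 k, Summable (fun a : 𝓞 k => HH x b a) ∧
      ∑' a, HH x b a ≤ (∏ v, (1 + rv v (b : k) ^ 2)⁻¹) * CL := by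
    intro b
    have h := hCL (fun v => rv v (b : k) * x v)
    refine ⟨h.1.mul_left _, ?_⟩
    simp only [HH]
    rw [tsum_mul_left]
    exact mul_le_mul_of_nonneg_left h.2 (Finset.prod_nonneg fun v _ => by positivity)
  have hout : Summable (fun b : 𝓞 k => ∑' a, HH x b a) :=
    Summable.of_nonneg_of_le (fun b => tsum_nonneg fun a => HH_nn x b a) (fun b => (hin b).2)
      (hS0.1.mul_right CL)
  have hsH : Summable (fun q : 𝓞 k × 𝓞 k => HH x q.1 q.2) :=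
    (summable_prod_of_nonneg (fun q => HH_nn x q.1 q.2)).2 ⟨fun b => (hin b).1, hout⟩
  have htH : ∑' q : 𝓞 k × 𝓞 k, HH x q.1 q.2 ≤ CL * CL := by
    rw [hsH.tsum_prod' (fun b => (hin b).1)]
    refine (hout.tsum_le_tsum (fun b => (hin b).2) (hS0.1.mul_right CL)).trans ?_
    rw [tsum_mul_right]
    exact mul_le_mul_of_nonneg_right hS0.2 hCL0.le
  refine ⟨hsH.prod_symm, ?_⟩
  have e : ∑' u : 𝓞 k × 𝓞 k, HH x u.2 u.1 = ∑' q : 𝓞 k × 𝓞 k, HH x q.1 q.2 :=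
    (Equiv.prodComm (𝓞 k) (𝓞 k)).tsum_eq (fun q : 𝓞 k × 𝓞 k => HH x q.1 q.2)
  rw [e]
  exact htH

end

open Classical in
/-- the bound of the Epstein zeta functions -/
theorem pf_EBD (hLSB : T_LSB) (hFOR : T_FOR)
    (hEMB : ∀ (k : Type) [Field k] [NumberField k] [IsTotallyReal k], T_EMB k)
    (hBAL : ∀ (k : Type) [Field k] [NumberField k] [IsTotallyReal k], T_BAL k) : T_EBD := by
  intro k _ _ _
  obtain ⟨CL, hCL0, hCL⟩ := hLSB k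
  obtain ⟨C, hC, hbal⟩ := hBAL k
  obtain ⟨hn, hn0, -, -, -, -, hNr0, hNru, -, hNr1, -, -⟩ := hEMB k
  obtain ⟨hF1, hF2, hF3⟩ := hFOR k
  set K1 : ℝ := (4 * (1 + C ^ 2)) ^ dg k * (2 * C ^ 2) ^ dg k with hK1
  have hK0 : 0 < K1 := by positivity
  refine ⟨K1 * (CL * CL), 2, by positivity, ?_⟩
  intro x y hy
  set MM : ℝ := (∏ v, (y v + (y v)⁻¹)) ^ 2 with hMM
  have hMM0 : 0 ≤ MM := sq_nonneg _
  -- the majorant
  set F : V2 k → ℝ := fun u => K1 * MM * HH x u.2 u.1 with hF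
  have hFnn : ∀ u, 0 ≤ F u := fun u => mul_nonneg (mul_nonneg hK0.le hMM0) (HH_nn x _ _)
  have hsumF : Summable F ∧ ∑' u, F u ≤ K1 * MM * (CL * CL) := by
    obtain ⟨h1, h2⟩ := HH_sum hCL0 hCL x
    refine ⟨h1.mul_left _, ?_⟩
    simp only [hF]
    rw [tsum_mul_left]
    exact mul_le_mul_of_nonneg_left h2 (mul_nonneg hK0.le hMM0)
  -- the balanced representatives
  have hrep : ∀ u : V2 k, u ≠ 0 → ∃ ε : (𝓞 k)ˣ,
      ((qp x y (((ε : 𝓞 k)) • u)) ^ 2)⁻¹ ≤ F (((ε : 𝓞 k)) • u) := by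
    intro u hu
    have hprod : ∀ w : 𝓞 k, w ≠ 0 → ∃ ε : (𝓞 k)ˣ, Blc C ((ε : 𝓞 k) * w) := by
      intro w hw
      have hwv : ∀ v : Pl k, 0 < |rv v (w : k)| := fun v => abs_pos.2 (by
        intro h
        exact hw (by
          have h2 : (w : k) = 0 := (map_eq_zero (rv v)).1 h
          exact_mod_cast h2))
      obtain ⟨ε, hε⟩ := hbal (fun v => |rv v (w : k)|) hwv
      refine ⟨ε, fun v => ?_⟩
      have e1 : |rv v ((((ε : 𝓞 k) * w : 𝓞 k) : k))| = |rv v ((ε : 𝓞 k) : k)| * |rv v (w : k)| := by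
        rw [← abs_mul, ← map_mul]; rfl
      have e2 : Nr ((((ε : 𝓞 k) * w : 𝓞 k) : k)) = ∏ v' : Pl k, |rv v' (w : k)| := by
        have e3 : ∀ v' : Pl k, |rv v' ((((ε : 𝓞 k) * w : 𝓞 k) : k))| =
            |rv v' ((ε : 𝓞 k) : k)| * |rv v' (w : k)| := by
          intro v'; rw [← abs_mul, ← map_mul]; rfl
        rw [Nr, Finset.prod_congr rfl (fun v' _ => e3 v'), Finset.prod_mul_distrib]
        have := hNru ε
        rw [Nr] at this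
        rw [this, one_mul]
      rw [e1, e2]
      exact hε v
    by_cases hb : u.2 = 0
    · have ha : u.1 ≠ 0 := fun h => hu (Prod.ext h hb)
      obtain ⟨ε, hε⟩ := hprod u.1 ha
      refine ⟨ε, ?_⟩
      set w : 𝓞 k := (ε : 𝓞 k) * u.1 with hw
      have hw0 : w ≠ 0 := mul_ne_zero ε.ne_zero ha
      have hwv : ∀ v : Pl k, rv v (w : k) ≠ 0 := fun v h => hw0 (by
        have h2 : (w : k) = 0 := (map_eq_zero (rv v)).1 h
        exact_mod_cast h2)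
      have hu1 : ((ε : 𝓞 k) • u).1 = w := rfl
      have hu2 : ((ε : 𝓞 k) • u).2 = 0 := by
        change (ε : 𝓞 k) * u.2 = 0
        rw [hb, mul_zero]
      have hN1 := hNr1 w hw0
      have e0 : (((0 : 𝓞 k)) : k) = 0 := rfl
      have step : ((qp x y (((ε : 𝓞 k)) • u)) ^ 2)⁻¹ ≤
          ∏ v, (4 * (1 + C ^ 2) * (y v + (y v)⁻¹) ^ 2 *
            ((rv v (w : k) ^ 2)⁻¹ * (rv v (w : k) ^ 2)⁻¹)) := by
        rw [qp, ← Finset.prod_pow, ← Finset.prod_inv_distrib]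
        refine Finset.prod_le_prod (fun v _ => by positivity) (fun v _ => ?_)
        rw [hu1, hu2, e0, map_zero]
        exact place0 hC (hy v) (hwv v)
      refine step.trans ?_
      rw [prod_split hn]
      have hB := blc_prod hC hn hn0 hN1 hε
      have hle1 : ∏ v : Pl k, (rv v (w : k) ^ 2)⁻¹ ≤ 1 := by
        rw [Finset.prod_inv_distrib]
        have : ∏ v : Pl k, rv v (w : k) ^ 2 = Nr (w : k) ^ 2 := by
          rw [Nr, ← Finset.prod_pow]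
          exact Finset.prod_congr rfl (fun v _ => (sq_abs _).symm)
        rw [this]
        exact inv_le_one_of_one_le₀ (one_le_pow₀ hN1)
      have hnn : 0 ≤ ∏ v : Pl k, (rv v (w : k) ^ 2)⁻¹ := Finset.prod_nonneg fun v _ => by positivity
      have hFv : F (((ε : 𝓞 k)) • u) = K1 * MM * ∏ v, (1 + rv v (w : k) ^ 2)⁻¹ := by
        simp only [hF, HH]
        rw [hu1, hu2, e0]
        simp
      rw [hFv, hK1, hMM]
      have h3 : (∏ v : Pl k, (rv v (w : k) ^ 2)⁻¹) * (∏ v : Pl k, (rv v (w : k) ^ 2)⁻¹) ≤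
          (2 * C ^ 2) ^ dg k * ∏ v : Pl k, (1 + rv v (w : k) ^ 2)⁻¹ :=
        (mul_le_of_le_one_left hnn hle1).trans hB
      calc (4 * (1 + C ^ 2)) ^ dg k * (∏ v, (y v + (y v)⁻¹)) ^ 2 *
            ((∏ v : Pl k, (rv v (w : k) ^ 2)⁻¹) * (∏ v : Pl k, (rv v (w : k) ^ 2)⁻¹))
          ≤ (4 * (1 + C ^ 2)) ^ dg k * (∏ v, (y v + (y v)⁻¹)) ^ 2 *
            ((2 * C ^ 2) ^ dg k * ∏ v : Pl k, (1 + rv v (w : k) ^ 2)⁻¹) :=
            mul_le_mul_of_nonneg_left h3 (by positivity)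
        _ = _ := by ring
    · obtain ⟨ε, hε⟩ := hprod u.2 hb
      refine ⟨ε, ?_⟩
      set w : 𝓞 k := (ε : 𝓞 k) * u.2 with hw
      have hw0 : w ≠ 0 := mul_ne_zero ε.ne_zero hb
      have hu2 : ((ε : 𝓞 k) • u).2 = w := rfl
      have hN1 := hNr1 w hw0
      have hwC : ∀ v : Pl k, 1 / C ≤ |rv v (w : k)| := by
        intro v
        refine le_trans ?_ (hε v).1
        apply div_le_div_of_nonneg_right _ (by linarith)
        exact Real.one_le_rpow hN1 (by positivity)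
      have step : ((qp x y (((ε : 𝓞 k)) • u)) ^ 2)⁻¹ ≤
          ∏ v, (4 * (1 + C ^ 2) * (y v + (y v)⁻¹) ^ 2 *
            ((rv v (w : k) ^ 2)⁻¹ *
              (1 + (rv v (((ε : 𝓞 k) • u).1 : k) + rv v (w : k) * x v) ^ 2)⁻¹)) := by
        rw [qp, ← Finset.prod_pow, ← Finset.prod_inv_distrib]
        refine Finset.prod_le_prod (fun v _ => by positivity) (fun v _ => ?_)
        rw [hu2]
        exact place1 hC (hy v) (hwC v)
      refine step.trans ?_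
      rw [prod_split hn]
      have hB := blc_prod hC hn hn0 hN1 hε
      have hnn : 0 ≤ ∏ v, (1 + (rv v (((ε : 𝓞 k) • u).1 : k) + rv v (w : k) * x v) ^ 2)⁻¹ :=
        Finset.prod_nonneg fun v _ => by positivity
      simp only [hF, hK1, hMM, HH]
      rw [hu2]
      calc (4 * (1 + C ^ 2)) ^ dg k * (∏ v, (y v + (y v)⁻¹)) ^ 2 *
            ((∏ v : Pl k, (rv v (w : k) ^ 2)⁻¹) *
              ∏ v, (1 + (rv v (((ε : 𝓞 k) • u).1 : k) + rv v (w : k) * x v) ^ 2)⁻¹)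
          ≤ (4 * (1 + C ^ 2)) ^ dg k * (∏ v, (y v + (y v)⁻¹)) ^ 2 *
            (((2 * C ^ 2) ^ dg k * ∏ v : Pl k, (1 + rv v (w : k) ^ 2)⁻¹) *
              ∏ v, (1 + (rv v (((ε : 𝓞 k) • u).1 : k) + rv v (w : k) * x v) ^ 2)⁻¹) :=
            mul_le_mul_of_nonneg_left (mul_le_mul_of_nonneg_right hB hnn) (by positivity)
        _ = _ := by ring
  -- invariance
  have hinv : ∀ (ε : (𝓞 k)ˣ) (u : V2 k), (qp x y (((ε : 𝓞 k)) • u)) ^ 2 = (qp x y u) ^ 2 := by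
    intro ε u
    have e1 : ∀ v : Pl k, qr (x v) (y v) (rv v ((((ε : 𝓞 k) • u).1 : 𝓞 k) : k))
        (rv v ((((ε : 𝓞 k) • u).2 : 𝓞 k) : k)) =
        |rv v ((ε : 𝓞 k) : k)| ^ 2 * qr (x v) (y v) (rv v (u.1 : k)) (rv v (u.2 : k)) := by
      intro v
      have h1 : rv v ((((ε : 𝓞 k) • u).1 : 𝓞 k) : k) = rv v ((ε : 𝓞 k) : k) * rv v (u.1 : k) := by
        rw [← map_mul]; rfl
      have h2 : rv v ((((ε : 𝓞 k) • u).2 : 𝓞 k) : k) = rv v ((ε : 𝓞 k) : k) * rv v (u.2 : k) := by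
        rw [← map_mul]; rfl
      rw [h1, h2, sq_abs]
      simp only [qr]
      ring
    rw [qp, qp, Finset.prod_congr rfl (fun v _ => e1 v), Finset.prod_mul_distrib,
      Finset.prod_pow]
    have := hNru ε
    rw [Nr] at this
    rw [this]
    ring
  -- conclusion
  choose! ε hε using hrep
  set S : Type := {u : V2 k // u ∈ Fo k} with hS
  set φ : S → V2 k := fun u => ((ε u.1 : 𝓞 k)) • u.1 with hφ
  have hφi : Function.Injective φ := by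
    intro u u' h
    have hu0 : u.1 ≠ 0 := hF1 _ u.2
    have hne : φ u ≠ 0 := by
      intro h0
      have h1 : ((((ε u.1)⁻¹ : (𝓞 k)ˣ) : 𝓞 k)) • φ u = u.1 := by
        simp only [hφ]
        rw [smul_smul, Units.inv_mul, one_smul]
      rw [h0, smul_zero] at h1
      exact hu0 h1.symm
    obtain ⟨q, -, hq2⟩ := hF3 (φ u) hne
    have h1 := hq2 (ε u.1, u.1) ⟨u.2, by rw [hF2]⟩
    have h2 := hq2 (ε u'.1, u'.1) ⟨u'.2, by rw [hF2]; exact h.symm⟩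
    have h3 : (ε u.1, u.1) = (ε u'.1, u'.1) := h1.trans h2.symm
    exact Subtype.ext (congrArg Prod.snd h3)
  have hle : ∀ u : S, (qp x y u.1) ^ (-2 : ℝ) ≤ F (φ u) := by
    intro u
    have hu0 : u.1 ≠ 0 := hF1 _ u.2
    have h1 := hε u.1 hu0
    rw [hinv] at h1
    have hq0 : 0 ≤ qp x y u.1 := Finset.prod_nonneg fun v _ => by
      rw [qr]
      have := hy v
      positivity
    have h2 : (qp x y u.1) ^ (-2 : ℝ) = ((qp x y u.1) ^ 2)⁻¹ := by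
      rw [Real.rpow_neg hq0, Real.rpow_two]
    rw [h2]
    exact h1
  have hnn : ∀ u : S, 0 ≤ (qp x y u.1) ^ (-2 : ℝ) := fun u => Real.rpow_nonneg
    (Finset.prod_nonneg fun v _ => by
      rw [qr]
      have := hy v
      positivity) _
  have hsub : Summable (fun u : S => (qp x y u.1) ^ (-2 : ℝ)) :=
    Summable.of_nonneg_of_le hnn hle (hsumF.1.comp_injective hφi)
  have hind : (fun u : V2 k => if u ∈ Fo k then (qp x y u) ^ (-2 : ℝ) else 0) =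
      (Fo k).indicator (fun u => (qp x y u) ^ (-2 : ℝ)) := by
    funext u
    simp only [Set.indicator]
  rw [hind]
  refine ⟨summable_subtype_iff_indicator.1 hsub, ?_⟩
  rw [← tsum_subtype (Fo k) (fun u => (qp x y u) ^ (-2 : ℝ))]
  have h1 : ∑' u : S, (qp x y u.1) ^ (-2 : ℝ) ≤ ∑' u : S, F (φ u) :=
    hsub.tsum_le_tsum hle (hsumF.1.comp_injective hφi)
  have h2 : ∑' u : S, F (φ u) ≤ ∑' u, F u :=
    tsum_comp_le_tsum_of_inj hsumF.1 hFnn hφi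
  refine (h1.trans (h2.trans hsumF.2)).trans (le_of_eq ?_)
  rw [hMM]; ring

end Pool.Agent.H61.NVE_EBD
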