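import Pool.Agent.H61.NVK.TargetsE3
import Pool.Agent.H23.NVK.JTargets

/-!
# The cut-off function: the properties needed by the mollifier part
-/

set_option autoImplicit false

open Set NumberField

namespace Pool.Agent.H61.NVE_VCK

open Pool.Agent.H61.NVK

theorem pow_conv (x : ℝ) (hx : 0 < x) (C : ℝ) (j : ℕ) :
    C * (1 + x) ^ (-(j : ℝ)) = C / (1 + x) ^ j := by
  rw [Real.rpow_neg (by linarith), Real.rpow_natCast, div_eq_mul_inv]

/-- the cut-off function is admissible -/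
theorem pf_VCK (h : T_VKF) : Pool.Agent.H23.NVK.T_VCK := by
  intro k _ _ _
  obtain ⟨h1, -, h3, h4⟩ := h k
  refine ⟨?_, ?_, ?_, h3⟩
  · obtain ⟨C, hC, hb⟩ := h4 0
    exact ⟨C, hC, fun x hx => (hb x hx).2.1⟩
  · intro j
    obtain ⟨C, hC, hb⟩ := h4 j
    refine ⟨C, hC, fun x hx => ?_⟩
    rw [← pow_conv x hx C j]
    exact (hb x hx).1
  · intro j
    obtain ⟨C, hC, hb⟩ := h4 j
    refine ⟨C, hC, fun x hx => ⟨h1 x hx, ?_⟩⟩
    rw [← pow_conv x hx C j]
    exact (hb x hx).2.2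

end Pool.Agent.H61.NVE_VCK
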